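import Pool.Agent.Q278.KT.Asm
import Pool.Agent.Q177.KT.FAR2
import Pool.Agent.Q298.KS.Sb1
import Pool.Agent.Q298.KS.Sb2
import Pool.Agent.Q298.KS.Sb3
import Pool.Agent.Q14.KS.Smo
import Pool.Agent.Q211.KS.Lvm
import Pool.Agent.Q211.KS.Lvh
import Pool.Agent.Q209.KS.Hu
import Pool.Agent.Q209.KS.Ker

/-! # Project KT: the three counting theorems for poor intervals, without hypotheses -/

set_option autoImplicit false

namespace Pool.Agent.Q278.KT

open Pool.Agent.Q240.KS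

theorem far2_all : S_FAR2 :=
  Pool.Agent.Q177.KT.FAR2.t_FAR2 (Pool.Agent.Q298.KS.sb1 Pool.Agent.Q14.KS.smo) Pool.Agent.Q298.KS.sb2
    Pool.Agent.Q298.KS.sb3 Pool.Agent.Q211.KS.lvm
    (Pool.Agent.Q211.KS.lvh (Pool.Agent.Q209.KS.hu Pool.Agent.Q209.KS.hmg (Pool.Agent.Q209.KS.ker Pool.Agent.Q14.KS.smo)))
    Pool.Agent.Q240.KT.m4_all

/-- at most `e^{(0.306 - η)Y}` poor intervals of length `≥ e^{(1/2 - η)Y}` -/
theorem mainp_half : MAINP (1 / 2) 0.306 := mainp_W far2_all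

/-- at most `e^{(0.045 - η)Y}` poor intervals of length `≥ e^{(0.57 - η)Y}` -/
theorem mainp_043 : MAINP 0.43 0.045 := mainp_V far2_all

/-- at most `e^{(13/16 - η)Y}` poor intervals of length `≥ e^{(3/16 - η)Y}` -/
theorem mainp_1316 : MAINP (13 / 16) (13 / 16) := mainp_E far2_all

end Pool.Agent.Q278.KT
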