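import Pool.Agent.Q278.KT.Stm

/-! # Project KT: linear block (PRE, PR2, MINF, LVC, MUL) -/

set_option autoImplicit false

namespace Pool.Agent.Q278.KT

open Finset

theorem t_MUL : S_MUL := by
  intro a s t ha hs hst ht
  have ha0 : 0 < a := by linarith
  refine ⟨⌈s / a⌉₊, ?_, ?_, ?_, ?_⟩
  · rw [Nat.one_le_ceil_iff]; positivity
  · apply Nat.ceil_le.2
    rw [div_le_iff₀ ha0]
    push_cast
    nlinarith
  · have := Nat.le_ceil (s / a)
    rw [div_le_iff₀ ha0] at this
    exact this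
  · have h1 := Nat.ceil_lt_add_one (a := s / a) (by positivity)
    have h2 : (⌈s / a⌉₊ : ℝ) * a < (s / a + 1) * a := by gcongr
    have h3 : (s / a + 1) * a = s + a := by field_simp
    linarith

theorem t_LVC : S_LVC := by
  intro lam0 al ka lam R c i m hC hal hka hm1 hm2
  have h := hC.lv i hal m hm1 hm2
  have hl := hC.la.2
  have hm : (1:ℝ) ≤ m := by exact_mod_cast hm1
  have hmul : (m : ℝ) * ka i ≤ m * (c * al i) := by gcongr
  refine h.trans ?_
  rw [add_zero]
  refine max_le_max ?_ (min_le_min ?_ ?_) <;> nlinarith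

/-- the set of the factors which are not tiny -/
noncomputable def II (al : Fin 10 → ℝ) : Finset (Fin 10) := univ.filter (fun i => 1 / 100000 ≤ al i)

theorem II_sum {al : Fin 10 → ℝ} (h : ∀ i, 0 ≤ al i) (h1 : ∑ i, al i = 1) : 0.9999 ≤ ∑ i ∈ II al, al i := by
  have h2 := Finset.sum_filter_add_sum_filter_not univ (fun i => 1 / 100000 ≤ al i) al
  have h3 : ∑ i ∈ univ.filter (fun i => ¬ (1 / 100000 ≤ al i)), al i ≤ 10 * (1 / 100000) := by
    calc ∑ i ∈ univ.filter (fun i => ¬ (1 / 100000 ≤ al i)), al i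
        ≤ ∑ i ∈ univ.filter (fun i => ¬ (1 / 100000 ≤ al i)), (1 / 100000 : ℝ) := by
          apply sum_le_sum
          intro i hi
          rw [mem_filter] at hi
          linarith [not_le.1 hi.2]
      _ = ((univ.filter (fun i => ¬ (1 / 100000 ≤ al i))).card : ℝ) * (1 / 100000) := by
          rw [sum_const, nsmul_eq_mul]
      _ ≤ 10 * (1 / 100000) := by
          gcongr
          have := card_le_univ (univ.filter (fun i => ¬ (1 / 100000 ≤ al i)))
          rw [Fintype.card_fin] at this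
          exact_mod_cast this
  rw [h1] at h2
  unfold II
  norm_num at *
  linarith

theorem t_MINF : S_MINF := by
  intro al ka hnn h1
  by_contra hcon
  push Not at hcon
  have hI := II_sum (fun i => (hnn i).1) h1
  have hne : (II al).Nonempty := by
    by_contra he
    rw [not_nonempty_iff_eq_empty] at he
    rw [he, sum_empty] at hI
    norm_num at hI
  have hlt : ∑ i ∈ II al, (∑ i, ka i) * al i < ∑ i ∈ II al, 0.9999 * ka i := by
    apply sum_lt_sum_of_nonempty hne
    intro i hi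
    exact hcon i (mem_filter.1 hi).2
  rw [← mul_sum, ← mul_sum] at hlt
  have h2 : ∑ i ∈ II al, ka i ≤ ∑ i, ka i :=
    sum_le_sum_of_subset_of_nonneg (subset_univ _) (fun i _ _ => (hnn i).2)
  have h3 : 0 ≤ ∑ i, ka i := sum_nonneg (fun i _ => (hnn i).2)
  nlinarith

theorem t_PRE : S_PRE := by
  classical
  intro I al ka t hal ht0 ht
  let init : Finset (Fin 10) → Prop := fun S => S ⊆ I ∧ ∑ i ∈ S, al i < t ∧
    ∀ i ∈ S, ∀ j ∈ I \ S, ka i * al j ≤ ka j * al i
  have h0 : init ∅ := ⟨empty_subset _, by simpa using ht0, by simp⟩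
  obtain ⟨S, hS, hmax⟩ := Finset.exists_max_image (univ.filter init) (fun S => S.card)
    ⟨∅, by simp [h0]⟩
  rw [mem_filter] at hS
  obtain ⟨hSI, hSt, hord⟩ := hS.2
  have hne : (I \ S).Nonempty := by
    by_contra he
    rw [not_nonempty_iff_eq_empty, sdiff_eq_empty_iff_subset] at he
    have : S = I := subset_antisymm hSI he
    rw [this] at hSt
    linarith
  obtain ⟨j, hj, hmin⟩ := Finset.exists_min_image (I \ S) (fun j => ka j / al j) hne
  have hjI : j ∈ I := (mem_sdiff.1 hj).1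
  have hjS : j ∉ S := (mem_sdiff.1 hj).2
  have hmin' : ∀ i ∈ I \ S, ka j * al i ≤ ka i * al j := by
    intro i hi
    have h1 := hmin i hi
    rwa [div_le_div_iff₀ (hal j hjI) (hal i (mem_sdiff.1 hi).1)] at h1
  refine ⟨S, hSI, j, hj, hSt, ?_, fun i hi => hord i hi j hj, hmin'⟩
  by_contra hlt
  push Not at hlt
  have hins : init (insert j S) := by
    refine ⟨insert_subset hjI hSI, ?_, ?_⟩
    · rw [sum_insert hjS]; linarith
    · intro i hi l hl
      rw [mem_sdiff, mem_insert, not_or] at hl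
      rw [mem_insert] at hi
      have hl' : l ∈ I \ S := mem_sdiff.2 ⟨hl.1, hl.2.2⟩
      rcases hi with rfl | hi
      · exact hmin' l hl'
      · exact hord i hi l hl'
  have := hmax (insert j S) (mem_filter.2 ⟨mem_univ _, hins⟩)
  rw [card_insert_of_notMem hjS] at this
  omega

theorem t_PR2 : S_PR2 := by
  classical
  intro al ka t hnn h1 ht0 ht
  have hI := II_sum (fun i => (hnn i).1) h1
  have hpos : ∀ i ∈ II al, 0 < al i := fun i hi => by
    have := (mem_filter.1 hi).2
    linarith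
  obtain ⟨S, hSI, j, hj, hSt, htS, ho1, ho2⟩ := t_PRE (II al) al ka t hpos ht0 (ht.trans hI)
  have hjI : j ∈ II al := (mem_sdiff.1 hj).1
  have hjS : j ∉ S := (mem_sdiff.1 hj).2
  have hj1 : 1 / 100000 ≤ al j := (mem_filter.1 hjI).2
  have hj0 := hpos j hjI
  have e1 : (∑ i ∈ S, ka i) * al j ≤ ka j * ∑ i ∈ S, al i := by
    rw [sum_mul, mul_sum]
    exact sum_le_sum ho1
  have e2 : ka j * (∑ i ∈ II al \ S, al i) ≤ (∑ i ∈ II al \ S, ka i) * al j := by
    rw [sum_mul, mul_sum]
    exact sum_le_sum ho2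
  have s1 := sum_sdiff hSI (f := al)
  have s2 := sum_sdiff hSI (f := ka)
  have h2 : ∑ i ∈ II al, ka i ≤ ∑ i, ka i :=
    sum_le_sum_of_subset_of_nonneg (subset_univ _) (fun i _ _ => (hnn i).2)
  have hmu : 0 ≤ ∑ i ∈ S, al i := sum_nonneg (fun i _ => (hnn i).1)
  have hk : 0 ≤ ∑ i ∈ S, ka i := sum_nonneg (fun i _ => (hnn i).2)
  have hkj := (hnn j).2
  set mu := ∑ i ∈ S, al i
  set k := ∑ i ∈ S, ka i
  set kap := ∑ i, ka i
  set A := ∑ i ∈ II al, al i
  set Kp := ∑ i ∈ II al, ka i
  have s1' : ∑ i ∈ II al \ S, al i = A - mu := by linarith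
  have s2' : ∑ i ∈ II al \ S, ka i = Kp - k := by linarith
  rw [s1', s2'] at e2
  refine ⟨S, j, hjS, hj1, hSt, htS, ?_, ?_⟩
  · have hA : 0 ≤ A - mu := by linarith
    have h3 : k * al j * (A - mu) ≤ ka j * mu * (A - mu) := by gcongr
    have h4 : mu * (ka j * (A - mu)) ≤ mu * ((Kp - k) * al j) := by gcongr
    have h5 : al j * (k * A) ≤ al j * (mu * Kp) := by nlinarith
    have h6 : k * A ≤ mu * Kp := le_of_mul_le_mul_left h5 hj0
    have h7 : mu * Kp ≤ mu * kap := by gcongr
    nlinarith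
  · have h3 : ka j * (0.9999 - mu) ≤ ka j * (A - mu) := by gcongr
    have h4 : (Kp - k) * al j ≤ (kap - k) * al j := by gcongr
    linarith

end Pool.Agent.Q278.KT
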