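import Pool.Agent.Q278.KT.Main2
import Pool.Agent.Q278.KT.Lin
import Pool.Agent.Q240.KT.All
import Pool.Agent.Q124.KT.XE
import Pool.Agent.Q124.KT.XV
import Pool.Agent.Q124.KT.XW
import Pool.Agent.Q31.KT.Prd
import Pool.Agent.Q31.KT.Dua
import Pool.Agent.Q208.KT.Cpt
import Pool.Agent.Q257.KS.HB
import Pool.Agent.Q257.KS.FE
import Pool.Agent.Q257.KS.FJL
import Pool.Agent.Q257.KS.HOL
import Pool.Agent.Q257.KS.LSD
import Pool.Agent.Q251.KS.BTL
import Pool.Agent.Q95.KS.Tup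
import Pool.Agent.Q222.KS.CLS
import Pool.Agent.Q298.KS.Tri

/-! # Project KT: everything except FAR2 -/

set_option autoImplicit false

namespace Pool.Agent.Q278.KT

open Pool.Agent.Q240.KS

theorem main2_all : S_MAIN2 :=
  t_MAIN2 (Pool.Agent.Q95.KS.tup Pool.Agent.Q257.KS.hb)
    (Pool.Agent.Q257.KS.fe Pool.Agent.Q257.KS.fjl Pool.Agent.Q251.KS.btl Pool.Agent.Q257.KS.hol)
    Pool.Agent.Q222.KS.cls Pool.Agent.Q240.KT.near2_all Pool.Agent.Q257.KS.lsd Pool.Agent.Q298.KS.tri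
    (Pool.Agent.Q31.KT.t_DUA Pool.Agent.Q240.KT.rt_all Pool.Agent.Q31.KT.t_PRD)

theorem opts_W : OPTS (1 / 2) 0.306 :=
  Pool.Agent.Q208.KT.t_CPT _ _ (by norm_num) (by norm_num)
    (Pool.Agent.Q124.KT.t_XW t_PR2 t_MINF t_LVC t_MUL)

theorem opts_V : OPTS 0.43 0.045 :=
  Pool.Agent.Q208.KT.t_CPT _ _ (by norm_num) (by norm_num)
    (Pool.Agent.Q124.KT.t_XV t_PR2 t_MINF t_LVC t_MUL)

theorem opts_E : OPTS (13 / 16) (13 / 16) :=
  Pool.Agent.Q208.KT.t_CPT _ _ (by norm_num) (by norm_num)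
    (Pool.Agent.Q124.KT.t_XE t_MINF t_LVC t_MUL)

theorem mainp_W (h : S_FAR2) : MAINP (1 / 2) 0.306 :=
  main2_all _ _ (by norm_num) (by norm_num) (h _ _ (by norm_num) (by norm_num) opts_W)

theorem mainp_V (h : S_FAR2) : MAINP 0.43 0.045 :=
  main2_all _ _ (by norm_num) (by norm_num) (h _ _ (by norm_num) (by norm_num) opts_V)

theorem mainp_E (h : S_FAR2) : MAINP (13 / 16) (13 / 16) :=
  main2_all _ _ (by norm_num) (by norm_num) (h _ _ (by norm_num) (by norm_num) opts_E)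

end Pool.Agent.Q278.KT
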