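import Pool.Agent.Q278.KT.Stm
import Pool.Agent.Q278.KS.Mai

/-! # Project KT: auxiliary facts for MAIN2 -/

set_option autoImplicit false

namespace Pool.Agent.Q278.KT

open Finset Pool.Agent.H376R2.MR Pool.Agent.Q240.KS Pool.Agent.Q278.KS

theorem exp04' : Real.exp (2 / 5) ≤ 1.5 := by
  have h1 : Real.exp (2 / 5) ^ 5 = Real.exp 1 ^ 2 := by
    rw [← Real.exp_nat_mul, ← Real.exp_nat_mul]; congr 1; norm_num
  have h2 := Real.exp_one_lt_d9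
  have h3 := Real.exp_pos (2 / 5)
  have h4 := Real.exp_pos 1
  apply le_of_pow_le_pow_left₀ (n := 5) (by norm_num) (by norm_num)
  rw [h1]
  calc Real.exp 1 ^ 2 ≤ 2.7182818286 ^ 2 := by gcongr
    _ ≤ 1.5 ^ 5 := by norm_num

theorem fin3 {N r X a b : ℝ} (hN : 1 ≤ N) (hr : 0 < r) (hX0 : 0 ≤ X) (ha : 0 ≤ a) (hb : 0 ≤ b)
    (h : N ^ 2 * r ≤ X * (N ^ 2 + a * N + N ^ (7 / 4 : ℝ) * b)) (hX : X ≤ r / 2) :
    N ≤ 4 * X / r * a ∨ N ≤ (4 * X / r * b) ^ 4 := by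
  have hN0 : 0 < N := by linarith
  have h1 : X * N ^ 2 ≤ r / 2 * N ^ 2 := by gcongr
  by_cases hc : N ^ 2 * r / 4 ≤ X * (a * N)
  · left
    have h2 : N * (N * r) ≤ N * (4 * X * a) := by nlinarith
    have h3 : N * r ≤ 4 * X * a := le_of_mul_le_mul_left h2 hN0
    have h4 : 4 * X / r * a = (4 * X * a) / r := by ring
    rw [h4, le_div_iff₀ hr]
    exact h3
  · right
    push Not at hc
    have h2 : N ^ 2 * r / 4 ≤ X * (N ^ (7 / 4 : ℝ) * b) := by nlinarith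
    have h3 : N ^ 2 = N ^ (7 / 4 : ℝ) * N ^ (1 / 4 : ℝ) := by
      rw [← Real.rpow_add hN0, ← Real.rpow_natCast]; norm_num
    have h4 : 0 < N ^ (7 / 4 : ℝ) := by positivity
    rw [h3] at h2
    have h5 : N ^ (7 / 4 : ℝ) * (N ^ (1 / 4 : ℝ) * r) ≤ N ^ (7 / 4 : ℝ) * (4 * X * b) := by nlinarith
    have h6 : N ^ (1 / 4 : ℝ) * r ≤ 4 * X * b := le_of_mul_le_mul_left h5 h4
    have h7 : N ^ (1 / 4 : ℝ) ≤ 4 * X / r * b := by
      have h8 : 4 * X / r * b = (4 * X * b) / r := by ring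
      rw [h8, le_div_iff₀ hr]
      exact h6
    calc N = (N ^ (1 / 4 : ℝ)) ^ 4 := by
          rw [← Real.rpow_natCast, ← Real.rpow_mul hN0.le]; norm_num
      _ ≤ (4 * X / r * b) ^ 4 := by gcongr

/-- the part of the product over a subset -/
theorem PFS_le (hT : S_TRI) {Y s : ℝ} {G : ℕ} {d g : Fin 10 → ℕ} {k : ℤ} (hY : 5 ≤ Y) (hd : d ∈ DY Y)
    (hs : 0 ≤ s) (hk : ∀ i, cg G s ‖PF (zY Y) (ty i) (d i) k‖ = g i) (S : Finset (Fin 10)) :
    ‖∏ i ∈ S, PF (zY Y) (ty i) (d i) k‖ ≤ (50 * Y) ^ 10 * Real.exp (-((∑ i ∈ S, (g i : ℝ)) * s)) := by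
  rw [norm_prod]
  calc ∏ i ∈ S, ‖PF (zY Y) (ty i) (d i) k‖ ≤ ∏ i ∈ S, (50 * Y * Real.exp (-(g i * s))) := by
        apply Finset.prod_le_prod
        · intro i _; exact norm_nonneg _
        · intro i _
          by_cases h : 1 ≤ g i
          · have h1 := cg_low hs (hk i) h
            have h2 := Real.exp_pos (-((g i:ℝ) * s))
            nlinarith
          · have h0 : g i = 0 := by omega
            rw [h0]
            have h1 := (hT (zY Y) (ty i) (d i) k).1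
            have h2 := DY_le' (by linarith) hd i
            simp only [Nat.cast_zero, zero_mul, neg_zero, Real.exp_zero, mul_one]
            linarith
    _ = (50 * Y) ^ S.card * Real.exp (-((∑ i ∈ S, (g i : ℝ)) * s)) := by
        rw [Finset.prod_mul_distrib, Finset.prod_const, ← Real.exp_sum]
        congr 2
        rw [Finset.sum_neg_distrib, Finset.sum_mul]
    _ ≤ (50 * Y) ^ 10 * Real.exp (-((∑ i ∈ S, (g i : ℝ)) * s)) := by
        gcongr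
        · linarith
        · have := card_le_univ S
          rwa [Fintype.card_fin] at this

/-- the third alternative -/
theorem third {lam0 e0 ε η η₁ Y C Kc K R kN mu Lc N A : ℝ} (hY : 1 ≤ Y) (hN : 1 ≤ N) (hC : 1 ≤ C)
    (hη₁ : 0 < η₁) (hε : ε = η₁ / 64) (hη : η ≤ η₁ / 64) (hη0 : 0 < η)
    (hKc : 1 ≤ Kc) (hA : A = (50 * Y) ^ 10)
    (hK : K ≤ Kc * Real.exp ((lam0 + η) * Y)) (hK1 : 1 ≤ K) (hKY : K ≤ Real.exp Y)
    (hL : Lc ≤ Real.exp (R * Y)) (hL0 : 0 ≤ Lc)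
    (w1 : R - 2 * kN ≤ -η₁) (w2 : R - 2 * kN + lam0 - mu ≤ e0 + -η₁)
    (w3 : 4 * (R - 2 * kN + 3 / 4 * lam0 - mu) ≤ e0 + -η₁)
    (ev1 : 2 * C * (1 + 50 * Y) ^ 44 ≤ Real.exp (η₁ / 2 * Y))
    (ev2 : 4 * C * (1 + 50 * Y) ^ 44 ≤ Real.exp (η₁ / 32 * Y)) (ev3 : Kc ≤ Real.exp (η * Y))
    (h : (N * (1 / Y ^ 12)) ^ 2 ≤ (A * Real.exp (-(kN * Y))) ^ 2 * Lc * (C * K ^ ε * Real.exp (2 * ε * Y) *
      (N ^ 2 + K * N * Real.exp (-(mu * Y)) + N ^ (7 / 4 : ℝ) * K ^ (3 / 4 : ℝ) * Real.exp (-(mu * Y))))) :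
    N ≤ Real.exp ((e0 - η₁ / 4) * Y) := by
  have hY0 : 0 < Y := by linarith
  have hε0 : 0 < ε := by rw [hε]; positivity
  have hK0 : 0 < K := by linarith
  set g := R - 2 * kN with hg
  set X : ℝ := C * (50 * Y) ^ 20 * Real.exp ((g + 3 * ε) * Y) with hX
  have hX0 : 0 ≤ X := by positivity
  have hKε : K ^ ε ≤ Real.exp (ε * Y) := by
    calc K ^ ε ≤ (Real.exp Y) ^ ε := Real.rpow_le_rpow hK0.le hKY hε0.le
      _ = Real.exp (ε * Y) := by rw [← Real.exp_mul]; congr 1; ring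
  have hXle : (A * Real.exp (-(kN * Y))) ^ 2 * Lc * (C * K ^ ε * Real.exp (2 * ε * Y)) ≤ X := by
    calc (A * Real.exp (-(kN * Y))) ^ 2 * Lc * (C * K ^ ε * Real.exp (2 * ε * Y))
        ≤ (A * Real.exp (-(kN * Y))) ^ 2 * Real.exp (R * Y) * (C * Real.exp (ε * Y) * Real.exp (2 * ε * Y)) := by
          gcongr
      _ = C * (50 * Y) ^ 20 * (Real.exp (-(kN * Y)) * Real.exp (-(kN * Y)) * Real.exp (R * Y) *
          (Real.exp (ε * Y) * Real.exp (2 * ε * Y))) := by rw [hA]; ring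
      _ = X := by
          rw [hX, ← Real.exp_add, ← Real.exp_add, ← Real.exp_add, ← Real.exp_add]
          congr 2; rw [hg]; ring
  set a : ℝ := K * Real.exp (-(mu * Y)) with ha
  set b : ℝ := K ^ (3 / 4 : ℝ) * Real.exp (-(mu * Y)) with hb
  have ha0 : 0 ≤ a := by positivity
  have hb0 : 0 ≤ b := by positivity
  have hr0 : 0 < (1 / Y ^ 12) ^ 2 := by positivity
  have hmain : N ^ 2 * (1 / Y ^ 12) ^ 2 ≤ X * (N ^ 2 + a * N + N ^ (7 / 4 : ℝ) * b) := by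
    have h0 : 0 ≤ N ^ 2 + a * N + N ^ (7 / 4 : ℝ) * b := by positivity
    calc N ^ 2 * (1 / Y ^ 12) ^ 2 = (N * (1 / Y ^ 12)) ^ 2 := by ring
      _ ≤ _ := h
      _ = (A * Real.exp (-(kN * Y))) ^ 2 * Lc * (C * K ^ ε * Real.exp (2 * ε * Y)) *
          (N ^ 2 + a * N + N ^ (7 / 4 : ℝ) * b) := by rw [ha, hb]; ring
      _ ≤ X * (N ^ 2 + a * N + N ^ (7 / 4 : ℝ) * b) := by gcongr
  have h50 : (50 * Y) ^ 20 * Y ^ 24 ≤ (1 + 50 * Y) ^ 44 := by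
    calc (50 * Y) ^ 20 * Y ^ 24 ≤ (1 + 50 * Y) ^ 20 * (1 + 50 * Y) ^ 24 := by
          gcongr <;> linarith
      _ = (1 + 50 * Y) ^ 44 := by ring
  have hXr : X / (1 / Y ^ 12) ^ 2 = C * ((50 * Y) ^ 20 * Y ^ 24) * Real.exp ((g + 3 * ε) * Y) := by
    rw [hX]; field_simp
  have hXhalf : X ≤ (1 / Y ^ 12) ^ 2 / 2 := by
    have h1 : X / (1 / Y ^ 12) ^ 2 ≤ 1 / 2 := by
      rw [hXr]
      have h2 : C * ((50 * Y) ^ 20 * Y ^ 24) * Real.exp ((g + 3 * ε) * Y) ≤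
          C * (1 + 50 * Y) ^ 44 * Real.exp (-(η₁ / 2 * Y)) := by
        gcongr
        have : g + 3 * ε ≤ -(η₁ / 2) := by rw [hε]; linarith
        nlinarith
      have h3 : C * (1 + 50 * Y) ^ 44 ≤ Real.exp (η₁ / 2 * Y) / 2 := by linarith
      calc C * ((50 * Y) ^ 20 * Y ^ 24) * Real.exp ((g + 3 * ε) * Y)
          ≤ C * (1 + 50 * Y) ^ 44 * Real.exp (-(η₁ / 2 * Y)) := h2
        _ ≤ Real.exp (η₁ / 2 * Y) / 2 * Real.exp (-(η₁ / 2 * Y)) := by gcongr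
        _ = (Real.exp (η₁ / 2 * Y) * Real.exp (-(η₁ / 2 * Y))) / 2 := by ring
        _ = 1 / 2 := by rw [← Real.exp_add]; simp
    rw [div_le_iff₀ hr0] at h1
    linarith
  have hP : 4 * X / (1 / Y ^ 12) ^ 2 ≤ Real.exp ((g + 3 * ε + η₁ / 32) * Y) := by
    have e1 : 4 * X / (1 / Y ^ 12) ^ 2 = 4 * (X / (1 / Y ^ 12) ^ 2) := by ring
    rw [e1, hXr]
    calc 4 * (C * ((50 * Y) ^ 20 * Y ^ 24) * Real.exp ((g + 3 * ε) * Y))
        = 4 * C * ((50 * Y) ^ 20 * Y ^ 24) * Real.exp ((g + 3 * ε) * Y) := by ring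
      _ ≤ 4 * C * (1 + 50 * Y) ^ 44 * Real.exp ((g + 3 * ε) * Y) := by gcongr
      _ ≤ Real.exp (η₁ / 32 * Y) * Real.exp ((g + 3 * ε) * Y) := by gcongr
      _ = Real.exp ((g + 3 * ε + η₁ / 32) * Y) := by rw [← Real.exp_add]; congr 1; ring
  have hK2 : K ≤ Real.exp ((lam0 + 2 * η) * Y) := by
    calc K ≤ Kc * Real.exp ((lam0 + η) * Y) := hK
      _ ≤ Real.exp (η * Y) * Real.exp ((lam0 + η) * Y) := by gcongr
      _ = Real.exp ((lam0 + 2 * η) * Y) := by rw [← Real.exp_add]; congr 1; ring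
  have hK34 : K ^ (3 / 4 : ℝ) ≤ Real.exp (3 / 4 * (lam0 + 2 * η) * Y) := by
    calc K ^ (3 / 4 : ℝ) ≤ (Real.exp ((lam0 + 2 * η) * Y)) ^ (3 / 4 : ℝ) :=
          Real.rpow_le_rpow hK0.le hK2 (by norm_num)
      _ = Real.exp (3 / 4 * (lam0 + 2 * η) * Y) := by rw [← Real.exp_mul]; congr 1; ring
  rcases fin3 hN hr0 hX0 ha0 hb0 hmain hXhalf with hc | hc
  · calc N ≤ 4 * X / (1 / Y ^ 12) ^ 2 * a := hc
      _ ≤ Real.exp ((g + 3 * ε + η₁ / 32) * Y) * (Real.exp ((lam0 + 2 * η) * Y) * Real.exp (-(mu * Y))) := by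
          rw [ha]; gcongr
      _ = Real.exp ((g + lam0 - mu + 3 * ε + η₁ / 32 + 2 * η) * Y) := by
          rw [← Real.exp_add, ← Real.exp_add]; congr 1; ring
      _ ≤ Real.exp ((e0 - η₁ / 4) * Y) := by
          apply Real.exp_le_exp.2
          apply mul_le_mul_of_nonneg_right _ hY0.le
          rw [hε]; linarith
  · calc N ≤ (4 * X / (1 / Y ^ 12) ^ 2 * b) ^ 4 := hc
      _ ≤ (Real.exp ((g + 3 * ε + η₁ / 32) * Y) * (Real.exp (3 / 4 * (lam0 + 2 * η) * Y) *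
          Real.exp (-(mu * Y)))) ^ 4 := by
          rw [hb]; gcongr
      _ = Real.exp ((4 * (g + 3 / 4 * lam0 - mu) + 12 * ε + η₁ / 8 + 6 * η) * Y) := by
          rw [← Real.exp_add, ← Real.exp_add, ← Real.exp_nat_mul]; congr 1; push_cast; ring
      _ ≤ Real.exp ((e0 - η₁ / 4) * Y) := by
          apply Real.exp_le_exp.2
          apply mul_le_mul_of_nonneg_right _ hY0.le
          rw [hε]; linarith

end Pool.Agent.Q278.KT
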